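import Pool.Agent.Helper6H.C4

set_option autoImplicit false
set_option linter.unusedSectionVars false

namespace Pool.Agent.H59K

open Finset Filter Pool.Agent.Helper46 Pool.Agent.Helper46.A Pool.Agent.Helper6H

theorem exp_le_two (y : ℝ) (hy : 0 ≤ y) : Real.exp y ≤ (2 : ℝ) ^ (2 * y) := by
  rw [Real.rpow_def_of_pos (by norm_num)]
  apply Real.exp_le_exp.2
  have := Real.log_two_gt_d9
  nlinarith

theorem ev_log' : ∀ᶠ n : ℕ in atTop, 8 * (3 + 8 * Real.logb 2 n) ≤ (n : ℝ) ^ (3 / 8 : ℝ) := by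
  have h := (isLittleO_log_rpow_atTop (r := 3 / 8) (by norm_num)).bound
    (c := 1 / 400) (by positivity)
  have h2 := (tendsto_natCast_atTop_atTop (R := ℝ)).eventually h
  have h3 := ((tendsto_rpow_atTop (y := (3 / 8 : ℝ)) (by norm_num)).comp
    (tendsto_natCast_atTop_atTop (R := ℝ))).eventually (eventually_ge_atTop 48)
  filter_upwards [h2, h3, eventually_ge_atTop 1] with n hn h3 h1
  have h1' : (1 : ℝ) ≤ n := by exact_mod_cast h1
  rw [Real.norm_of_nonneg (Real.log_nonneg h1'), Real.norm_of_nonneg (by positivity)] at hn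
  simp only [Function.comp] at h3
  have hlog2 := Real.log_two_gt_d9
  have e1 : Real.logb 2 n ≤ 2 * Real.log n := by
    unfold Real.logb
    rw [div_le_iff₀ (by linarith)]
    have := Real.log_nonneg h1'
    nlinarith
  linarith

theorem num_L : ∀ᶠ n : ℕ in atTop, ∀ L : ℕ, 1 ≤ L → L ^ 8 ≤ n → ∀ r,
    II n r * (SB n (AN.Kn n) : ℝ) * PP n ≤ (2 : ℝ) ^ ((AN.N0 n : ℝ) / n / (8 * L)) := by
  filter_upwards [num_ev, ev_log', eventually_ge_atTop 16] with n hnum hlog hn L hL1 hL r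
  obtain ⟨k1, -, -, -⟩ := hnum
  have hn16 : (16 : ℝ) ≤ n := by exact_mod_cast hn
  have hn0 : (0 : ℝ) < n := by linarith
  have hN0 : (0 : ℝ) ≤ (AN.N0 n : ℝ) := Nat.cast_nonneg _
  set x : ℝ := (AN.N0 n : ℝ) / n with hx
  have hx0 : 0 ≤ x := by positivity
  set s : ℝ := Real.sqrt n with hs
  have hss : s * s = n := Real.mul_self_sqrt hn0.le
  have hs0 : 0 ≤ s := Real.sqrt_nonneg _
  have hs4 : 4 ≤ s := by
    have h16 : Real.sqrt 16 = 4 := by
      rw [show (16 : ℝ) = 4 ^ 2 by norm_num]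
      exact Real.sqrt_sq (by norm_num)
    rw [hs, ← h16]
    exact Real.sqrt_le_sqrt hn16
  -- `K ≤ 2 x / s`
  have hsq : s / 2 ≤ (Nat.sqrt n : ℝ) := by
    have h1 : n < (Nat.sqrt n + 1) * (Nat.sqrt n + 1) := Nat.lt_succ_sqrt n
    have h1' : (n : ℝ) < ((Nat.sqrt n : ℝ) + 1) * ((Nat.sqrt n : ℝ) + 1) := by exact_mod_cast h1
    have h2 : s < (Nat.sqrt n : ℝ) + 1 := by
      by_contra hcon
      push Not at hcon
      have h3 : ((Nat.sqrt n : ℝ) + 1) * ((Nat.sqrt n : ℝ) + 1) ≤ s * s :=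
        mul_self_le_mul_self (by positivity) hcon
      linarith
    linarith
  have hK : (AN.Kn n : ℝ) ≤ 2 * x / s := by
    unfold AN.Kn
    refine le_trans (Nat.cast_div_le) ?_
    push_cast
    have h1 : (n : ℝ) * (s / 2) ≤ n * (Nat.sqrt n : ℝ) := mul_le_mul_of_nonneg_left hsq hn0.le
    have h2 : (AN.N0 n : ℝ) / (n * (Nat.sqrt n : ℝ)) ≤ (AN.N0 n : ℝ) / (n * (s / 2)) := by
      apply div_le_div_of_nonneg_left hN0 (by positivity) h1
    refine h2.trans (le_of_eq ?_)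
    rw [hx]
    field_simp
  -- bound for `SB`
  have hSB := AN.E2.SB_le n (AN.Kn n) (by omega)
  have hsb : (SB n (AN.Kn n) : ℝ) = (AN.SB n (AN.Kn n) : ℝ) := rfl
  have hnp : (n : ℝ) ^ (4 * AN.Kn n) = (2 : ℝ) ^ (4 * (AN.Kn n : ℝ) * Real.logb 2 n) := by
    rw [mul_comm (4 * (AN.Kn n : ℝ)), Real.rpow_mul (by norm_num), Real.rpow_logb (by norm_num)
      (by norm_num) hn0, ← Real.rpow_natCast]
    push_cast
    rfl
  have hexp : Real.exp ((2 : ℝ) ^ n / (n : ℝ) ^ 4) ≤ (2 : ℝ) ^ (2 * ((2 : ℝ) ^ n / (n : ℝ) ^ 4)) :=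
    exp_le_two _ (by positivity)
  have hmid := AN.E4.mid_bound n
  have hy : 2 * ((2 : ℝ) ^ n / (n : ℝ) ^ 4) ≤ x / s := by
    have h1 : (2 : ℝ) ^ n ≤ 2 * n * (AN.N0 n : ℝ) := by nlinarith
    have h2 : 2 * ((2 : ℝ) ^ n / (n : ℝ) ^ 4) ≤ 2 * ((2 * n * (AN.N0 n : ℝ)) / (n : ℝ) ^ 4) := by
      gcongr
    refine h2.trans ?_
    rw [hx, mul_div_assoc', div_div, div_le_div_iff₀ (by positivity) (by positivity)]
    have h3 : 4 * s ≤ (n : ℝ) * n := by nlinarith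
    have h4 : 0 ≤ (AN.N0 n : ℝ) * (n : ℝ) ^ 2 := by positivity
    nlinarith [mul_le_mul_of_nonneg_left h3 h4]
  have hlb : 0 ≤ Real.logb 2 n := Real.logb_nonneg (by norm_num) (by linarith)
  have hLr : (L : ℝ) ≤ (n : ℝ) ^ (1 / 8 : ℝ) := by
    have h1 : ((L : ℝ) ^ (8 : ℕ)) ≤ n := by exact_mod_cast hL
    have h2 : (L : ℝ) = ((L : ℝ) ^ (8 : ℕ)) ^ (1 / 8 : ℝ) := by
      rw [← Real.rpow_natCast, ← Real.rpow_mul (by positivity)]
      norm_num
    rw [h2]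
    exact Real.rpow_le_rpow (by positivity) h1 (by norm_num)
  have hkey : 8 * (L : ℝ) * (3 + 8 * Real.logb 2 n) ≤ s := by
    have h1 : (L : ℝ) * (n : ℝ) ^ (3 / 8 : ℝ) ≤ s := by
      calc (L : ℝ) * (n : ℝ) ^ (3 / 8 : ℝ) ≤ (n : ℝ) ^ (1 / 8 : ℝ) * (n : ℝ) ^ (3 / 8 : ℝ) :=
            mul_le_mul_of_nonneg_right hLr (by positivity)
        _ = s := by
          rw [← Real.rpow_add hn0, hs, Real.sqrt_eq_rpow]
          norm_num
    have h2 := mul_le_mul_of_nonneg_left hlog (Nat.cast_nonneg L : (0 : ℝ) ≤ L)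
    linarith
  have hL0 : (0 : ℝ) < L := by exact_mod_cast hL1
  calc II n r * (SB n (AN.Kn n) : ℝ) * PP n = (II n r * PP n) * (SB n (AN.Kn n) : ℝ) := by ring
    _ ≤ 2 ^ (AN.Kn n) * ((n : ℝ) ^ (4 * AN.Kn n) * Real.exp ((2 : ℝ) ^ n / (n : ℝ) ^ 4)) :=
        mul_le_mul (k1 r) (hsb ▸ hSB) (by positivity) (by positivity)
    _ ≤ 2 ^ (AN.Kn n) * ((2 : ℝ) ^ (4 * (AN.Kn n : ℝ) * Real.logb 2 n) *
          (2 : ℝ) ^ (2 * ((2 : ℝ) ^ n / (n : ℝ) ^ 4))) := by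
        rw [hnp]
        gcongr
    _ = (2 : ℝ) ^ ((AN.Kn n : ℝ) + (4 * (AN.Kn n : ℝ) * Real.logb 2 n +
          2 * ((2 : ℝ) ^ n / (n : ℝ) ^ 4))) := by
        rw [Real.rpow_add (by norm_num), Real.rpow_add (by norm_num), Real.rpow_natCast]
    _ ≤ _ := by
        apply Real.rpow_le_rpow_of_exponent_le (by norm_num)
        have h1 : (AN.Kn n : ℝ) + (4 * (AN.Kn n : ℝ) * Real.logb 2 n +
            2 * ((2 : ℝ) ^ n / (n : ℝ) ^ 4)) ≤ x / s * (3 + 8 * Real.logb 2 n) := by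
          have h2 : (AN.Kn n : ℝ) * (1 + 4 * Real.logb 2 n) ≤ 2 * x / s * (1 + 4 * Real.logb 2 n) :=
            mul_le_mul_of_nonneg_right hK (by positivity)
          have h3 : 2 * x / s = 2 * (x / s) := by ring
          rw [h3] at h2
          nlinarith
        refine h1.trans ?_
        rw [div_mul_eq_mul_div, div_le_div_iff₀ (by linarith) (by positivity)]
        nlinarith [mul_le_mul_of_nonneg_left hkey hx0]

end Pool.Agent.H59K
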