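import Pool.Agent.H59K.A1

set_option autoImplicit false
set_option linter.unusedSectionVars false

namespace Pool.Agent.H59K

open Finset Filter Pool.Agent.Helper46 Pool.Agent.Helper46.A Pool.Agent.Helper6H

open Classical in
/-- bad base families -/
noncomputable def BadL (n r L : ℕ) : Finset (Fam n) :=
  (BF n r).filter (fun B => ¬ (n ≤ 8 * r ∧ 8 * r ≤ 7 * n ∧ L * (n.choose r - B.card) ≤ n.choose r))

theorem bad_rankL : ∀ᶠ n : ℕ in atTop, ∀ L : ℕ, 1 ≤ L → L ^ 8 ≤ n → ∀ r ≤ n,
    ((BadL n r L).card : ℝ) * 2 ^ (n ^ 2) ≤ mm n := by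
  classical
  filter_upwards [num_ev, num_L, LL_bound, E7.upper, eventually_ge_atTop 10000]
    with n hnum hnumL hLL hup hn L hL1 hL8 r hr
  obtain ⟨k1, k2, -, k4⟩ := hnum
  have k3 := hnumL L hL1 hL8
  have hL16 : 16 * L ≤ n := by
    rcases le_or_gt L 100 with h | h
    · omega
    · have h1 : 16 ≤ L ^ 7 := by
        calc 16 ≤ 100 ^ 7 := by norm_num
          _ ≤ L ^ 7 := Nat.pow_le_pow_left h.le 7
      calc 16 * L ≤ L ^ 7 * L := Nat.mul_le_mul_right _ h1
        _ = L ^ 8 := by ring
        _ ≤ n := hL8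
  have hmm := mm_lower (n := n) (by omega)
  have hmm0 : 0 < mm n := lt_of_lt_of_le (by positivity) hmm
  have hn0 : (0 : ℝ) < n := by exact_mod_cast (by omega : 0 < n)
  have hL0 : (0 : ℝ) < L := by exact_mod_cast hL1
  have hPge : (2 : ℝ) ^ (n ^ 2) ≤ PP n := by
    unfold PP
    exact pow_le_pow_right₀ (by norm_num) (by omega)
  have hbadBF : ((BadL n r L).card : ℝ) ≤ ((BF n r).card : ℝ) := by
    have : BadL n r L ⊆ BF n r := filter_subset _ _
    exact_mod_cast card_le_card this
  by_cases hw : n ≤ 8 * r ∧ 8 * r ≤ 7 * n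
  swap
  · have hc := choose_le_Fs (by omega) hw
    have e1 : ((BadL n r L).card : ℝ) ≤ 2 ^ (AN.Fs n) := by
      refine hbadBF.trans ?_
      have : (BF n r).card ≤ 2 ^ (AN.Fs n) :=
        (BF_card_le n r).trans (Nat.pow_le_pow_right (by norm_num) hc)
      exact_mod_cast this
    calc ((BadL n r L).card : ℝ) * 2 ^ (n ^ 2) ≤ 2 ^ (AN.Fs n) * PP n :=
          mul_le_mul e1 hPge (by positivity) (by positivity)
      _ ≤ _ := k4
      _ ≤ _ := hmm
  obtain ⟨hw1, hw2⟩ := hw
  by_cases hC : 4 * n.choose r < n.choose (n / 2)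
  · -- few base families at this rank
    have hrows := A3.super_rows (n := n) univ r (by omega) (by rw [card_univ, Fintype.card_fin]; omega)
    have hcols := A4.super_cols (n := n) univ r (by rw [card_univ, Fintype.card_fin]; omega)
    have h := hup r hw1 hw2 hC (fun a θ ha hθ V h lam hl => kwU a θ ha hθ V h lam hl)
      (fun A hA hc => by
        have := hrows (1 / 10) (by norm_num) A hA (by rw [card_univ, Fintype.card_fin]; exact hc)
        rw [card_univ, Fintype.card_fin] at this
        exact this)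
      (fun A hA hc => by
        have := hcols (1 / 10) (by norm_num)
          (fun j hj1 hj2 A hA hc => A3.super_rows univ j hj1 hj2 (1 / 10) (by norm_num) A hA hc)
          A hA (by rw [card_univ, Fintype.card_fin]; exact hc)
        rw [card_univ, Fintype.card_fin] at this
        exact this)
    have hall : ((BF n r).card : ℝ) ≤ II n r * SS n r := by
      unfold II SS
      exact_mod_cast all_count (n := n) (r := r) (l := n / 8)
    have hSS : SS n r ≤ (2 : ℝ) ^ ((3 : ℝ) / 5 * ((AN.N0 n : ℝ) / n)) := h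
    have hexp : (2 : ℝ) ^ ((3 : ℝ) / 5 * ((AN.N0 n : ℝ) / n)) * (2 : ℝ) ^ ((AN.N0 n : ℝ) / n / 100) ≤
        (2 : ℝ) ^ ((AN.N0 n : ℝ) / n) := by
      rw [← Real.rpow_add (by norm_num)]
      apply Real.rpow_le_rpow_of_exponent_le (by norm_num)
      have : (0 : ℝ) ≤ (AN.N0 n : ℝ) / n := by positivity
      linarith
    calc ((BadL n r L).card : ℝ) * 2 ^ (n ^ 2) ≤ (II n r * SS n r) * PP n :=
          mul_le_mul (hbadBF.trans hall) hPge (by positivity)
            (mul_nonneg (II_nonneg n r) (SS_nonneg n r))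
      _ = SS n r * (II n r * PP n) := by ring
      _ ≤ (2 : ℝ) ^ ((3 : ℝ) / 5 * ((AN.N0 n : ℝ) / n)) * (2 : ℝ) ^ ((AN.N0 n : ℝ) / n / 100) :=
          mul_le_mul hSS (k2 r) (mul_nonneg (II_nonneg n r) (PP_pos n).le) (by positivity)
      _ ≤ _ := hexp
      _ ≤ _ := hmm
  · push Not at hC
    have hC' : AN.N0 n ≤ 4 * n.choose r := hC
    have hS : SS n r ≤ mm n := st_le_mm (by omega) (by omega)
    have hL1' := hLL r hw1 hw2 hC'
    have hL2 := hLL (n - r) (by omega) (by omega) (by rw [Nat.choose_symm hr]; exact hC')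
    have hLC : ((LC n r).card : ℝ) * PP n ≤ n * mm n := by
      refine le_trans (mul_le_mul_of_nonneg_right ?_ (PP_pos n).le) hL2
      exact_mod_cast LC_le
    set A1 := (BF n r).filter (fun B => AN.Kn n ≤ (nt (n / 8) r B).card) with hA1
    set D := (BF n r).filter (fun B => (nt (n / 8) r B).card ≤ AN.Kn n ∧ (∀ a, ∃ X ∈ B, a ∈ X) ∧
      (∀ a, ∃ X ∈ B, a ∉ X)) with hD
    set A4 := D.filter (fun B => n.choose r < L * (n.choose r - B.card)) with hA4
    have hcov : BadL n r L ⊆ A1 ∪ (LL n r ∪ (LC n r ∪ A4)) := by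
      intro B hB
      unfold BadL at hB
      obtain ⟨hB1, hB2⟩ := mem_filter.1 hB
      have hB3 : n.choose r < L * (n.choose r - B.card) := by
        by_contra hcon
        push Not at hcon
        exact hB2 ⟨hw1, hw2, hcon⟩
      by_cases c1 : AN.Kn n ≤ (nt (n / 8) r B).card
      · exact mem_union_left _ (mem_filter.2 ⟨hB1, c1⟩)
      · by_cases c2 : ∃ a, ∀ X ∈ B, a ∉ X
        · exact mem_union_right _ (mem_union_left _ (by unfold LL; exact mem_filter.2 ⟨hB1, c2⟩))
        · by_cases c3 : ∃ a, ∀ X ∈ B, a ∈ X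
          · exact mem_union_right _ (mem_union_right _ (mem_union_left _
              (by unfold LC; exact mem_filter.2 ⟨hB1, c3⟩)))
          · refine mem_union_right _ (mem_union_right _ (mem_union_right _ ?_))
            push Not at c2 c3
            exact mem_filter.2 ⟨mem_filter.2 ⟨hB1, by omega, c2, c3⟩, hB3⟩
    have hc : ((BadL n r L).card : ℝ) ≤ A1.card + ((LL n r).card + ((LC n r).card + A4.card)) := by
      have g1 := card_le_card hcov
      have g2 := card_union_le A1 (LL n r ∪ (LC n r ∪ A4))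
      have g3 := card_union_le (LL n r) (LC n r ∪ A4)
      have g4 := card_union_le (LC n r) A4
      exact_mod_cast g1.trans (by omega)
    -- part 1
    have t1 : (A1.card : ℝ) * PP n ≤ mm n := by
      have f1 := nt_count (n := n) (r := r) (l := n / 8) (K := AN.Kn n)
      have f1' : (A1.card : ℝ) * 2 ^ (AN.Kn n) ≤ II n r * SS n r := by
        unfold II SS
        exact_mod_cast f1
      have h2K : (0 : ℝ) < 2 ^ (AN.Kn n) := by positivity
      have : ((A1.card : ℝ) * PP n) * 2 ^ (AN.Kn n) ≤ mm n * 2 ^ (AN.Kn n) := by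
        calc ((A1.card : ℝ) * PP n) * 2 ^ (AN.Kn n) = ((A1.card : ℝ) * 2 ^ (AN.Kn n)) * PP n := by ring
          _ ≤ (II n r * SS n r) * PP n := mul_le_mul_of_nonneg_right f1' (PP_pos n).le
          _ = SS n r * (II n r * PP n) := by ring
          _ ≤ mm n * 2 ^ (AN.Kn n) := mul_le_mul hS (k1 r)
              (mul_nonneg (II_nonneg n r) (PP_pos n).le) hmm0.le
      exact le_of_mul_le_mul_right this h2K
    -- part 4
    have t4 : (A4.card : ℝ) * PP n ≤ mm n := by
      have f1 := kp_count (n := n) (r := r) (l := n / 8) (K := AN.Kn n) (by omega)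
      have f2 : ∀ B ∈ A4, (2 : ℝ) ^ ((AN.N0 n : ℝ) / n / (8 * L)) ≤ ((St (Kp (n / 8) r B)).card : ℝ) := by
        intro B hB
        obtain ⟨hB1, hB2⟩ := mem_filter.1 hB
        obtain ⟨hB3, hB4, hB5, hB6⟩ := mem_filter.1 hB1
        have hBF := mem_BF.1 hB3
        refine le_trans ?_ (B1.st_lower (by omega) (Kp (n / 8) r B))
        apply Real.rpow_le_rpow_of_exponent_le (by norm_num)
        have g1 := Kp_card (l := n / 8) hBF
        have g2 := St_card (by omega) hr (sg_St (l := n / 8) hBF)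
        have g3 : (sg (n / 8) r B).card * (2 * L) ≤ n.choose r :=
          (Nat.mul_le_mul_left _ (by omega : 2 * L ≤ n - r + 1)).trans g2
        have g4 : n.choose r ≤ 2 * L * (Kp (n / 8) r B).card := by
          have e1 : n.choose r - B.card ≤ (sg (n / 8) r B).card + (Kp (n / 8) r B).card := by omega
          have e2 : L * (n.choose r - B.card) ≤
              L * (sg (n / 8) r B).card + L * (Kp (n / 8) r B).card := by
            calc L * (n.choose r - B.card) ≤ L * ((sg (n / 8) r B).card + (Kp (n / 8) r B).card) :=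
                  Nat.mul_le_mul_left _ e1
              _ = _ := by ring
          have e3 : 2 * (L * (sg (n / 8) r B).card) ≤ n.choose r := by
            calc 2 * (L * (sg (n / 8) r B).card) = (sg (n / 8) r B).card * (2 * L) := by ring
              _ ≤ _ := g3
          have e4 : 2 * L * (Kp (n / 8) r B).card = 2 * (L * (Kp (n / 8) r B).card) := by ring
          rw [e4]
          omega
        have g6 : (AN.N0 n : ℝ) ≤ 8 * L * ((Kp (n / 8) r B).card : ℝ) := by
          have : AN.N0 n ≤ 8 * L * (Kp (n / 8) r B).card := by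
            calc AN.N0 n ≤ 4 * n.choose r := hC'
              _ ≤ 4 * (2 * L * (Kp (n / 8) r B).card) := Nat.mul_le_mul_left _ g4
              _ = _ := by ring
          exact_mod_cast this
        rw [div_div, mul_comm (n : ℝ) (8 * L), ← div_div]
        apply div_le_div_of_nonneg_right _ hn0.le
        rw [div_le_iff₀ (by positivity)]
        linarith
      have f3 : (A4.card : ℝ) * (2 : ℝ) ^ ((AN.N0 n : ℝ) / n / (8 * L)) ≤
          II n r * (SB n (AN.Kn n) : ℝ) * SS n r := by
        calc (A4.card : ℝ) * (2 : ℝ) ^ ((AN.N0 n : ℝ) / n / (8 * L))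
            = ∑ B ∈ A4, (2 : ℝ) ^ ((AN.N0 n : ℝ) / n / (8 * L)) := by rw [sum_const, nsmul_eq_mul]
          _ ≤ ∑ B ∈ A4, ((St (Kp (n / 8) r B)).card : ℝ) := sum_le_sum f2
          _ ≤ ∑ B ∈ D, ((St (Kp (n / 8) r B)).card : ℝ) :=
              sum_le_sum_of_subset_of_nonneg (filter_subset _ _) (fun _ _ _ => by positivity)
          _ ≤ _ := by
              unfold II SS
              exact_mod_cast f1
      have h2K : (0 : ℝ) < (2 : ℝ) ^ ((AN.N0 n : ℝ) / n / (8 * L)) := by positivity
      have : ((A4.card : ℝ) * PP n) * (2 : ℝ) ^ ((AN.N0 n : ℝ) / n / (8 * L)) ≤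
          mm n * (2 : ℝ) ^ ((AN.N0 n : ℝ) / n / (8 * L)) := by
        calc ((A4.card : ℝ) * PP n) * (2 : ℝ) ^ ((AN.N0 n : ℝ) / n / (8 * L))
            = ((A4.card : ℝ) * (2 : ℝ) ^ ((AN.N0 n : ℝ) / n / (8 * L))) * PP n := by ring
          _ ≤ (II n r * (SB n (AN.Kn n) : ℝ) * SS n r) * PP n :=
              mul_le_mul_of_nonneg_right f3 (PP_pos n).le
          _ = SS n r * (II n r * (SB n (AN.Kn n) : ℝ) * PP n) := by ring
          _ ≤ mm n * (2 : ℝ) ^ ((AN.N0 n : ℝ) / n / (8 * L)) := by
              refine mul_le_mul hS (k3 r) ?_ hmm0.le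
              exact mul_nonneg (mul_nonneg (II_nonneg n r) (by positivity)) (PP_pos n).le
      exact le_of_mul_le_mul_right this h2K
    have hsum : ((BadL n r L).card : ℝ) * PP n ≤ (2 + 2 * n) * mm n := by
      have := mul_le_mul_of_nonneg_right hc (PP_pos n).le
      nlinarith
    have hpow : PP n = 4 * 2 ^ n * 2 ^ (n ^ 2) := by
      unfold PP
      rw [pow_add, pow_add]; norm_num; ring
    have hn1 : ((n : ℝ) + 1) ≤ 2 ^ n := by
      have : n + 1 ≤ 2 ^ n := Nat.lt_two_pow_self
      exact_mod_cast this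
    rw [hpow] at hsum
    have h2n : (0 : ℝ) < 4 * 2 ^ n := by positivity
    have : (4 * 2 ^ n) * (((BadL n r L).card : ℝ) * 2 ^ (n ^ 2)) ≤ (4 * 2 ^ n) * mm n := by
      nlinarith
    exact le_of_mul_le_mul_left this h2n

end Pool.Agent.H59K
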