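import Pool.Agent.Helper46.A.F

set_option autoImplicit false
set_option linter.unusedSectionVars false

namespace Pool.Agent.H59K

open Finset Filter Pool.Agent.Helper46 Pool.Agent.Helper46.A Pool.Agent.Helper46.A.F

/-- `(X, Y)` is a `j`-separation of `M`: a partition of the ground set `Fin n` into two parts with
at least `j` elements each and `r(X) + r(Y) - r(M) ≤ j - 1`. -/
def IsSep {n : ℕ} (M : Matroid (Fin n)) (j : ℕ) (X Y : Set (Fin n)) : Prop :=
  X ∪ Y = Set.univ ∧ Disjoint X Y ∧ j ≤ X.ncard ∧ j ≤ Y.ncard ∧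
    M.eRk X + M.eRk Y + 1 ≤ M.eRank + j

/-- `M` is `k`-connected (Tutte): no `j`-separation for any `j < k`. -/
def KConn {n : ℕ} (k : ℕ) (M : Matroid (Fin n)) : Prop :=
  ∀ j < k, ∀ X Y : Set (Fin n), ¬ IsSep M j X Y

theorem base_card' {n r : ℕ} {M : Matroid (Fin n)} (hB : IsBF r (bs_22726 M)) :
    M.eRank = (r : ℕ∞) := by
  obtain ⟨X, hX⟩ := hB.ne
  rw [← ((mem_bs_22726 M X).1 hX).encard_eq_eRank, Set.encard_coe_eq_coe_finsetCard, hB.card X hX]

/-- a `j`-separation produces many nonbases -/
theorem sep_nonbases {n r j : ℕ} {M : Matroid (Fin n)} (hB : IsBF r (bs_22726 M))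
    {X Y : Set (Fin n)} (hs : IsSep M j X Y) (hjr : j ≤ r) :
    (n - 2 * j).choose (r - j) ≤ n.choose r - (bs_22726 M).card := by
  classical
  obtain ⟨hU, hd, hX, hY, hrk⟩ := hs
  have hrank := base_card' hB
  lift X to Finset (Fin n) using X.toFinite
  lift Y to Finset (Fin n) using Y.toFinite
  rw [Set.ncard_coe_finset] at hX hY
  have hdXY : Disjoint X Y := by exact_mod_cast hd
  have hUXY : X ∪ Y = univ := by
    have : ((X ∪ Y : Finset (Fin n)) : Set (Fin n)) = ((univ : Finset (Fin n)) : Set (Fin n)) := by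
      rw [coe_union, hU, coe_univ]
    exact_mod_cast this
  obtain ⟨S, hSX, hSc⟩ := exists_subset_card_eq hX
  obtain ⟨T, hTY, hTc⟩ := exists_subset_card_eq hY
  have hST : Disjoint S T := disjoint_of_subset_left hSX (disjoint_of_subset_right hTY hdXY)
  set W : Finset (Fin n) := univ \ (S ∪ T) with hW
  have hWc : W.card = n - 2 * j := by
    rw [hW, card_sdiff_of_subset (subset_univ _), card_univ, Fintype.card_fin,
      card_union_of_disjoint hST, hSc, hTc]
    congr 1
    ring
  -- ranks as natural numbers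
  have hxt : M.eRk (X : Set (Fin n)) ≠ ⊤ := by
    refine ne_top_of_le_ne_top ?_ (M.eRk_le_encard _)
    rw [Set.encard_coe_eq_coe_finsetCard]
    exact ENat.coe_ne_top _
  have hyt : M.eRk (Y : Set (Fin n)) ≠ ⊤ := by
    refine ne_top_of_le_ne_top ?_ (M.eRk_le_encard _)
    rw [Set.encard_coe_eq_coe_finsetCard]
    exact ENat.coe_ne_top _
  obtain ⟨a, ha⟩ := ENat.ne_top_iff_exists.1 hxt
  obtain ⟨b, hb⟩ := ENat.ne_top_iff_exists.1 hyt
  rw [← ha, ← hb, hrank] at hrk
  have hab : a + b + 1 ≤ r + j := by exact_mod_cast hrk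
  have hbX : ∀ Z ∈ bs_22726 M, (Z ∩ X).card ≤ a := by
    intro Z hZ
    rw [mem_bs_22726] at hZ
    have h1 := (hZ.indep.subset (Set.inter_subset_left (s := (Z : Set (Fin n)))
      (t := (X : Set (Fin n))))).encard_le_eRk_of_subset
      (Set.inter_subset_right (s := (Z : Set (Fin n))) (t := (X : Set (Fin n))))
    rw [← coe_inter, Set.encard_coe_eq_coe_finsetCard, ← ha] at h1
    exact_mod_cast h1
  have hbY : ∀ Z ∈ bs_22726 M, (Z ∩ Y).card ≤ b := by
    intro Z hZ
    rw [mem_bs_22726] at hZ
    have h1 := (hZ.indep.subset (Set.inter_subset_left (s := (Z : Set (Fin n)))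
      (t := (Y : Set (Fin n))))).encard_le_eRk_of_subset
      (Set.inter_subset_right (s := (Z : Set (Fin n))) (t := (Y : Set (Fin n))))
    rw [← coe_inter, Set.encard_coe_eq_coe_finsetCard, ← hb] at h1
    exact_mod_cast h1
  -- the map
  let f : Finset (Fin n) → Finset (Fin n) := fun R => if R ∪ S ∈ bs_22726 M then R ∪ T else R ∪ S
  have hRd : ∀ R ∈ powersetCard (r - j) W, R.card = r - j ∧ Disjoint R S ∧ Disjoint R T := by
    intro R hR
    obtain ⟨h1, h2⟩ := mem_powersetCard.1 hR
    refine ⟨h2, ?_, ?_⟩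
    · rw [disjoint_left]
      intro x hx hxS
      have := h1 hx
      rw [hW, Finset.mem_sdiff] at this
      exact this.2 (mem_union_left _ hxS)
    · rw [disjoint_left]
      intro x hx hxT
      have := h1 hx
      rw [hW, Finset.mem_sdiff] at this
      exact this.2 (mem_union_right _ hxT)
  have hsub : (powersetCard (r - j) W).card ≤ (powersetCard r univ \ bs_22726 M).card := by
    refine card_le_card_of_injOn f ?_ ?_
    · intro R hR
      have hR' := mem_coe.1 hR
      obtain ⟨h1, h2, h3⟩ := hRd R hR'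
      refine mem_coe.2 (Finset.mem_sdiff.2 ⟨?_, ?_⟩)
      · rw [mem_powersetCard]
        refine ⟨subset_univ _, ?_⟩
        change (if R ∪ S ∈ bs_22726 M then R ∪ T else R ∪ S).card = r
        split_ifs with h
        · rw [card_union_of_disjoint h3, h1, hTc]; omega
        · rw [card_union_of_disjoint h2, h1, hSc]; omega
      · change (if R ∪ S ∈ bs_22726 M then R ∪ T else R ∪ S) ∉ bs_22726 M
        split_ifs with h
        · intro h'
          have e1 := hbX _ h
          have e2 := hbY _ h'
          have e3 : ((R ∪ S) ∩ X).card = (R ∩ X).card + j := by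
            rw [union_inter_distrib_right, card_union_of_disjoint, inter_eq_left.2 hSX, hSc]
            exact disjoint_of_subset_left inter_subset_left
              (disjoint_of_subset_right inter_subset_left h2)
          have e4 : ((R ∪ T) ∩ Y).card = (R ∩ Y).card + j := by
            rw [union_inter_distrib_right, card_union_of_disjoint, inter_eq_left.2 hTY, hTc]
            exact disjoint_of_subset_left inter_subset_left
              (disjoint_of_subset_right inter_subset_left h3)
          have e5 : (R ∩ X).card + (R ∩ Y).card = r - j := by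
            rw [← card_union_of_disjoint, ← inter_union_distrib_left, hUXY, inter_univ, h1]
            exact disjoint_of_subset_left inter_subset_right
              (disjoint_of_subset_right inter_subset_right hdXY)
          omega
        · exact h
    · intro R hR R' hR' heq
      have hfW : ∀ R ∈ powersetCard (r - j) W, f R ∩ W = R := by
        intro R hR
        obtain ⟨h1, h2, h3⟩ := hRd R hR
        have hRW := (mem_powersetCard.1 hR).1
        change (if R ∪ S ∈ bs_22726 M then R ∪ T else R ∪ S) ∩ W = R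
        have hSW : S ∩ W = ∅ := by
          rw [← disjoint_iff_inter_eq_empty, hW]
          exact disjoint_sdiff.mono_left subset_union_left
        have hTW : T ∩ W = ∅ := by
          rw [← disjoint_iff_inter_eq_empty, hW]
          exact disjoint_sdiff.mono_left subset_union_right
        split_ifs with h
        · rw [union_inter_distrib_right, hTW, union_empty, inter_eq_left.2 hRW]
        · rw [union_inter_distrib_right, hSW, union_empty, inter_eq_left.2 hRW]
      rw [← hfW R (mem_coe.1 hR), ← hfW R' (mem_coe.1 hR'), heq]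
  rw [card_powersetCard, hWc] at hsub
  have hBsub : bs_22726 M ⊆ powersetCard r univ := fun Z hZ =>
    mem_powersetCard.2 ⟨subset_univ _, hB.card Z hZ⟩
  rw [card_sdiff_of_subset hBsub, card_powersetCard, card_univ, Fintype.card_fin] at hsub
  exact hsub

theorem choose_step {m s : ℕ} (hs : 1 ≤ s) (hsm : s + 1 ≤ m) (h1 : m ≤ 10 * s) (h2 : m ≤ 10 * (m - s)) :
    m.choose s ≤ 16 * (m - 2).choose (s - 1) := by
  obtain ⟨m, rfl⟩ : ∃ m', m = m' + 2 := ⟨m - 2, by omega⟩
  obtain ⟨s, rfl⟩ : ∃ s', s = s' + 1 := ⟨s - 1, by omega⟩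
  obtain ⟨t, ht⟩ : ∃ t, m = s + t := ⟨m - s, by omega⟩
  subst ht
  simp only [Nat.add_sub_cancel]
  have e1 : (s + t + 1 + 1) * (s + t + 1).choose s = (s + t + 1 + 1).choose (s + 1) * (s + 1) :=
    Nat.add_one_mul_choose_eq (s + t + 1) s
  have e2 : (s + t).choose s * (s + t + 1) = (s + t + 1).choose s * (s + t + 1 - s) :=
    Nat.choose_mul_succ_eq (s + t) s
  have e3 : s + t + 1 - s = t + 1 := by omega
  rw [e3] at e2
  have h2' : s + t + 2 ≤ 10 * (t + 1) := by omega
  have e4 : (s + t + 2).choose (s + 1) * ((s + 1) * (t + 1)) =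
      ((s + t + 2) * (s + t + 1)) * (s + t).choose s := by
    calc (s + t + 2).choose (s + 1) * ((s + 1) * (t + 1))
        = ((s + t + 1 + 1).choose (s + 1) * (s + 1)) * (t + 1) := by ring
      _ = ((s + t + 1 + 1) * (s + t + 1).choose s) * (t + 1) := by rw [e1]
      _ = (s + t + 2) * ((s + t + 1).choose s * (t + 1)) := by ring
      _ = (s + t + 2) * ((s + t).choose s * (s + t + 1)) := by rw [e2]
      _ = _ := by ring
  have h3 : (s + t + 2) * (s + t + 1) ≤ 16 * ((s + 1) * (t + 1)) := by
    nlinarith [Nat.zero_le s, Nat.zero_le t]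
  have h4 : (s + t + 2).choose (s + 1) * ((s + 1) * (t + 1)) ≤
      (16 * (s + t).choose s) * ((s + 1) * (t + 1)) := by
    rw [e4]
    calc ((s + t + 2) * (s + t + 1)) * (s + t).choose s
        ≤ (16 * ((s + 1) * (t + 1))) * (s + t).choose s := Nat.mul_le_mul_right _ h3
      _ = _ := by ring
  exact Nat.le_of_mul_le_mul_right h4 (by positivity)

theorem choose_iter {n r : ℕ} (h1 : n ≤ 8 * r) (h2 : 8 * r ≤ 7 * n) : ∀ j : ℕ, 32 * j ≤ n →
    n.choose r ≤ 16 ^ j * (n - 2 * j).choose (r - j) := by
  intro j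
  induction j with
  | zero => intro _; simp
  | succ j ih =>
    intro hj
    refine (ih (by omega)).trans ?_
    have h3 := choose_step (m := n - 2 * j) (s := r - j) (by omega) (by omega) (by omega) (by omega)
    have e1 : n - 2 * j - 2 = n - 2 * (j + 1) := by omega
    have e2 : r - j - 1 = r - (j + 1) := by omega
    rw [e1, e2] at h3
    calc 16 ^ j * (n - 2 * j).choose (r - j)
        ≤ 16 ^ j * (16 * (n - 2 * (j + 1)).choose (r - (j + 1))) := Nat.mul_le_mul_left _ h3
      _ = _ := by rw [pow_succ]; ring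

/-- many bases and central rank -/
def GoodL {n : ℕ} (L : ℕ) (M : Matroid (Fin n)) : Prop :=
  ∀ r, IsBF r (bs_22726 M) →
    n ≤ 8 * r ∧ 8 * r ≤ 7 * n ∧ L * (n.choose r - (bs_22726 M).card) ≤ n.choose r

theorem kconn_of_good {n k : ℕ} (hk : 2 ^ (32 * k) ≤ n) {M : Matroid (Fin n)}
    (hg : GoodL (16 ^ k) M) : KConn k M := by
  intro j hj X Y hs
  obtain ⟨r, hr, hB⟩ := bs_isBF_22726 M
  obtain ⟨h1, h2, h3⟩ := hg r hB
  have hkn : 32 * k < n := lt_of_lt_of_le Nat.lt_two_pow_self hk
  have h4 := sep_nonbases hB hs (by omega)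
  have h5 := choose_iter h1 h2 j (by omega)
  have h6 : 0 < (n - 2 * j).choose (r - j) := Nat.choose_pos (by omega)
  have h7 : n.choose r ≤ 16 ^ j * (n.choose r - (bs_22726 M).card) :=
    h5.trans (Nat.mul_le_mul_left _ h4)
  have h8 : 16 ^ k * (n.choose r - (bs_22726 M).card) ≤ 16 ^ j * (n.choose r - (bs_22726 M).card) :=
    h3.trans h7
  have h9 := Nat.le_of_mul_le_mul_right h8 (lt_of_lt_of_le h6 h4)
  have h10 : 16 ^ j < 16 ^ k := Nat.pow_lt_pow_right (by norm_num) hj
  omega

end Pool.Agent.H59K
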