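import Pool.Agent.H59K.A2
import Pool.Agent.H59K.B1
import Pool.Agent.Helper6H.C5

set_option autoImplicit false
set_option linter.unusedSectionVars false

namespace Pool.Agent.H59K

open Finset Filter Pool.Agent.Helper46 Pool.Agent.Helper46.A Pool.Agent.Helper46.A.F Pool.Agent.Helper6H

theorem bad_totalL : ∀ᶠ m : ℕ in atTop, ∀ L : ℕ, 1 ≤ L → L ^ 8 ≤ m →
    (Nat.card {M : XM_22726 m // ¬ GoodL L M.1} : ℝ) * 2 ^ (m ^ 2) ≤
      ((m : ℝ) + 1) * (Nat.card (XM_22726 m) : ℝ) := by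
  classical
  filter_upwards [bad_rankL] with m hm L hL1 hL8
  have hm := hm L hL1 hL8
  haveI : Fintype (XM_22726 m) := Fintype.ofFinite _
  have h1 : Nat.card {M : XM_22726 m // ¬ GoodL L M.1} ≤ ∑ r ∈ range (m + 1), (BadL m r L).card := by
    rw [Nat.card_eq_fintype_card, Fintype.card_subtype]
    rw [← Finset.card_image_of_injective _ bs_inj_22726]
    refine le_trans (Finset.card_le_card ?_) Finset.card_biUnion_le
    intro B hB
    rw [Finset.mem_image] at hB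
    obtain ⟨M, hM, rfl⟩ := hB
    rw [Finset.mem_filter] at hM
    have hM2 := hM.2
    unfold GoodL at hM2
    push Not at hM2
    obtain ⟨r, hr, hbad⟩ := hM2
    rw [mem_biUnion]
    refine ⟨r, ?_, ?_⟩
    · rw [Finset.mem_range]
      obtain ⟨r', hr', hB'⟩ := bs_isBF_22726 M.1
      have := isBF_unique_22726 hr hB'
      omega
    · unfold BadL
      refine mem_filter.2 ⟨mem_BF.2 hr, ?_⟩
      rintro ⟨h1, h2, h3⟩
      have := hbad h1 h2
      omega
  have h1' : (Nat.card {M : XM_22726 m // ¬ GoodL L M.1} : ℝ) ≤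
      ∑ r ∈ range (m + 1), ((BadL m r L).card : ℝ) := by exact_mod_cast h1
  calc (Nat.card {M : XM_22726 m // ¬ GoodL L M.1} : ℝ) * 2 ^ (m ^ 2)
      ≤ (∑ r ∈ range (m + 1), ((BadL m r L).card : ℝ)) * 2 ^ (m ^ 2) :=
        mul_le_mul_of_nonneg_right h1' (by positivity)
    _ = ∑ r ∈ range (m + 1), ((BadL m r L).card : ℝ) * 2 ^ (m ^ 2) := by rw [sum_mul]
    _ ≤ ∑ r ∈ range (m + 1), mm m :=
        sum_le_sum (fun r hr => hm r (by have := Finset.mem_range.1 hr; omega))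
    _ = ((m : ℝ) + 1) * mm m := by rw [sum_const, card_range, nsmul_eq_mul]; push_cast; ring
    _ ≤ _ := mul_le_mul_of_nonneg_left (mm_le_22726 m) (by positivity)

/-- all but a proportion `(m + 1) / 2 ^ (m ^ 2)` of the matroids are `k`-connected -/
theorem bad_k : ∀ᶠ m : ℕ in atTop, ∀ k : ℕ, 2 ^ (32 * k) ≤ m →
    (Nat.card {M : XM_22726 m // ¬ KConn k M.1} : ℝ) * 2 ^ (m ^ 2) ≤
      ((m : ℝ) + 1) * (Nat.card (XM_22726 m) : ℝ) := by
  classical
  filter_upwards [bad_totalL] with m hm k hk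
  have h1 : (16 ^ k) ^ 8 = 2 ^ (32 * k) := by
    rw [show (16 : ℕ) = 2 ^ 4 by norm_num, ← pow_mul, ← pow_mul]
    congr 1
    ring
  have h2 := hm (16 ^ k) (Nat.one_le_pow _ _ (by norm_num)) (by rw [h1]; exact hk)
  refine le_trans (mul_le_mul_of_nonneg_right ?_ (by positivity)) h2
  have h3 : Nat.card {M : XM_22726 m // ¬ KConn k M.1} ≤
      Nat.card {M : XM_22726 m // ¬ GoodL (16 ^ k) M.1} :=
    Nat.card_le_card_of_injective
      (fun M => (⟨M.1, fun hg => M.2 (kconn_of_good hk hg)⟩ :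
        {M : XM_22726 m // ¬ GoodL (16 ^ k) M.1}))
      (fun M N h => Subtype.ext (Subtype.mk.inj h))
  exact_mod_cast h3

theorem fact_bound {m : ℕ} (hm : 4 ≤ m) :
    ((m : ℝ) + 1) * (m.factorial : ℝ) * 2 ^ m ≤ 2 ^ (m ^ 2) := by
  have h1 : 4 * m ≤ 2 ^ m := by
    induction m, hm using Nat.le_induction with
    | base => norm_num
    | succ m hm ih => rw [pow_succ]; omega
  have h2 : m.factorial ≤ m ^ m := Nat.factorial_le_pow m
  have h3 : m + 1 ≤ 2 ^ m := Nat.lt_two_pow_self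
  have h4 : (m + 1) * m.factorial * 2 ^ m ≤ 2 ^ (m ^ 2) := by
    calc (m + 1) * m.factorial * 2 ^ m ≤ 2 ^ m * m ^ m * 2 ^ m :=
          Nat.mul_le_mul_right _ (Nat.mul_le_mul h3 h2)
      _ = (4 * m) ^ m := by
          rw [mul_pow, show (4 : ℕ) = 2 * 2 by norm_num, mul_pow]; ring
      _ ≤ (2 ^ m) ^ m := Nat.pow_le_pow_left h1 m
      _ = 2 ^ (m ^ 2) := by rw [← pow_mul, sq]
  exact_mod_cast h4

theorem labelled : ∀ᶠ m : ℕ in atTop, ∀ k : ℕ, 2 ^ (32 * k) ≤ m →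
    1 - ((m : ℝ) + 1) / 2 ^ (m ^ 2) ≤
      (Nat.card {M : Matroid (Fin m) // M.E = Set.univ ∧ KConn k M} : ℝ) /
        (Nat.card {M : Matroid (Fin m) // M.E = Set.univ} : ℝ) := by
  classical
  filter_upwards [bad_k] with m hm k hk
  have hb := hm k hk
  haveI : Fintype (XM_22726 m) := Fintype.ofFinite _
  have e1 : Nat.card {M : Matroid (Fin m) // M.E = Set.univ ∧ KConn k M} =
      Nat.card {M : XM_22726 m // KConn k M.1} :=
    Nat.card_congr (Equiv.subtypeSubtypeEquivSubtypeInter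
      (fun M : Matroid (Fin m) => M.E = Set.univ) (fun M => KConn k M)).symm
  have e2 : Nat.card {M : XM_22726 m // KConn k M.1} + Nat.card {M : XM_22726 m // ¬ KConn k M.1} =
      Nat.card (XM_22726 m) := by
    rw [Nat.card_eq_fintype_card, Nat.card_eq_fintype_card, Nat.card_eq_fintype_card,
      Fintype.card_subtype, Fintype.card_subtype]
    exact card_filter_add_card_filter_not (s := (univ : Finset (XM_22726 m))) (fun M => KConn k M.1)
  have hX : (0 : ℝ) < (Nat.card (XM_22726 m) : ℝ) := by exact_mod_cast XM_pos m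
  rw [e1]
  have e2' : (Nat.card {M : XM_22726 m // KConn k M.1} : ℝ) +
      (Nat.card {M : XM_22726 m // ¬ KConn k M.1} : ℝ) = (Nat.card (XM_22726 m) : ℝ) := by
    exact_mod_cast e2
  have h2 : (0 : ℝ) < 2 ^ (m ^ 2) := by positivity
  show _ ≤ (Nat.card {M : XM_22726 m // KConn k M.1} : ℝ) / (Nat.card (XM_22726 m) : ℝ)
  rw [le_div_iff₀ hX]
  have h3 : (Nat.card {M : XM_22726 m // ¬ KConn k M.1} : ℝ) ≤
      ((m : ℝ) + 1) / 2 ^ (m ^ 2) * (Nat.card (XM_22726 m) : ℝ) := by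
    rw [div_mul_eq_mul_div, le_div_iff₀ h2]
    exact hb
  linarith

theorem unlabelled : ∀ᶠ m : ℕ in atTop, ∀ k : ℕ, 2 ^ (32 * k) ≤ m →
    1 - 1 / (2 : ℝ) ^ m ≤
      (Nat.card {q : Quot (RR_22726 m) // ∀ M, q = Quot.mk _ M → KConn k M.1} : ℝ) /
        (Nat.card (Quot (RR_22726 m)) : ℝ) := by
  classical
  filter_upwards [bad_k, eventually_ge_atTop 4] with m hm hm4 k hk
  have hb := hm k hk
  haveI : Fintype (XM_22726 m) := Fintype.ofFinite _
  haveI : Finite (Quot (RR_22726 m)) := Quot.finite _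
  haveI : Fintype (Quot (RR_22726 m)) := Fintype.ofFinite _
  have e2 : Nat.card {q : Quot (RR_22726 m) // ∀ M, q = Quot.mk _ M → KConn k M.1} +
      Nat.card {q : Quot (RR_22726 m) // ¬ ∀ M, q = Quot.mk _ M → KConn k M.1} =
      Nat.card (Quot (RR_22726 m)) := by
    rw [Nat.card_eq_fintype_card, Nat.card_eq_fintype_card, Nat.card_eq_fintype_card,
      Fintype.card_subtype, Fintype.card_subtype]
    exact card_filter_add_card_filter_not (s := (univ : Finset (Quot (RR_22726 m))))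
      (fun q => ∀ M, q = Quot.mk _ M → KConn k M.1)
  have e3 : Nat.card {q : Quot (RR_22726 m) // ¬ ∀ M, q = Quot.mk _ M → KConn k M.1} ≤
      Nat.card {M : XM_22726 m // ¬ KConn k M.1} := by
    have hch : ∀ q : {q : Quot (RR_22726 m) // ¬ ∀ M, q = Quot.mk _ M → KConn k M.1},
        ∃ M : {M : XM_22726 m // ¬ KConn k M.1}, q.1 = Quot.mk _ M.1 := by
      rintro ⟨q, hq⟩
      push Not at hq
      obtain ⟨M, h1, h2⟩ := hq
      exact ⟨⟨M, h2⟩, h1⟩
    choose g hg using hch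
    exact Nat.card_le_card_of_injective g (fun q q' h => Subtype.ext (by rw [hg q, hg q', h]))
  have e4 := card_le_22726 m
  have hQ : (0 : ℝ) < (Nat.card (Quot (RR_22726 m)) : ℝ) := by exact_mod_cast quot_pos_22726 m
  have e2' : (Nat.card {q : Quot (RR_22726 m) // ∀ M, q = Quot.mk _ M → KConn k M.1} : ℝ) +
      (Nat.card {q : Quot (RR_22726 m) // ¬ ∀ M, q = Quot.mk _ M → KConn k M.1} : ℝ) =
      (Nat.card (Quot (RR_22726 m)) : ℝ) := by exact_mod_cast e2
  have e3' : (Nat.card {q : Quot (RR_22726 m) // ¬ ∀ M, q = Quot.mk _ M → KConn k M.1} : ℝ) ≤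
      (Nat.card {M : XM_22726 m // ¬ KConn k M.1} : ℝ) := by exact_mod_cast e3
  have e4' : (Nat.card (XM_22726 m) : ℝ) ≤ (Nat.card (Quot (RR_22726 m)) : ℝ) * m.factorial := by
    exact_mod_cast e4
  have hf := fact_bound hm4
  have h2 : (0 : ℝ) < 2 ^ (m ^ 2) := by positivity
  have h2m : (0 : ℝ) < 2 ^ m := by positivity
  rw [le_div_iff₀ hQ]
  have key : (Nat.card {M : XM_22726 m // ¬ KConn k M.1} : ℝ) * 2 ^ m ≤
      (Nat.card (Quot (RR_22726 m)) : ℝ) := by
    have h3 : ((Nat.card {M : XM_22726 m // ¬ KConn k M.1} : ℝ) * 2 ^ m) * 2 ^ (m ^ 2) ≤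
        (Nat.card (Quot (RR_22726 m)) : ℝ) * 2 ^ (m ^ 2) := by
      calc ((Nat.card {M : XM_22726 m // ¬ KConn k M.1} : ℝ) * 2 ^ m) * 2 ^ (m ^ 2)
          = ((Nat.card {M : XM_22726 m // ¬ KConn k M.1} : ℝ) * 2 ^ (m ^ 2)) * 2 ^ m := by ring
        _ ≤ (((m : ℝ) + 1) * (Nat.card (XM_22726 m) : ℝ)) * 2 ^ m :=
            mul_le_mul_of_nonneg_right hb h2m.le
        _ ≤ (((m : ℝ) + 1) * ((Nat.card (Quot (RR_22726 m)) : ℝ) * m.factorial)) * 2 ^ m := by
            gcongr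
        _ = (Nat.card (Quot (RR_22726 m)) : ℝ) * (((m : ℝ) + 1) * (m.factorial : ℝ) * 2 ^ m) := by
            ring
        _ ≤ _ := mul_le_mul_of_nonneg_left hf hQ.le
    exact le_of_mul_le_mul_right h3 h2
  have key2 : (Nat.card {q : Quot (RR_22726 m) // ¬ ∀ M, q = Quot.mk _ M → KConn k M.1} : ℝ) ≤
      1 / 2 ^ m * (Nat.card (Quot (RR_22726 m)) : ℝ) := by
    rw [div_mul_eq_mul_div, one_mul, le_div_iff₀ h2m]
    exact le_trans (mul_le_mul_of_nonneg_right e3' h2m.le) key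
  linarith

theorem rate_tendsto2 : Tendsto (fun m : ℕ => 1 - 1 / (2 : ℝ) ^ m) atTop (nhds 1) := by
  have h1 : Tendsto (fun m : ℕ => (1 / 2 : ℝ) ^ m) atTop (nhds 0) :=
    tendsto_pow_atTop_nhds_zero_of_lt_one (by norm_num) (by norm_num)
  have h2 := (tendsto_const_nhds (x := (1 : ℝ)) (f := atTop (α := ℕ))).sub h1
  rw [sub_zero] at h2
  refine h2.congr (fun m => ?_)
  rw [one_div, one_div, inv_pow]

theorem ratio_le_one {α : Type*} [Finite α] (p : α → Prop) :
    (Nat.card {x : α // p x} : ℝ) / (Nat.card α : ℝ) ≤ 1 := by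
  apply div_le_one_of_le₀ _ (Nat.cast_nonneg _)
  exact_mod_cast Nat.card_le_card_of_injective _ (Subtype.val_injective (p := p))

end Pool.Agent.H59K
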